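import Pool.Agent.Run7.h177.TA.Iface2

/-!
Project TA (helper177), pieces COO and AIN (helper711).
-/

set_option autoImplicit false

namespace Run7.h711.TA

open MvPolynomial Filter Topology Module
open Pool.Agent.TH182.TC (PS Holo)
open Run7.h418 (ImmAt)
open Run7.h177.TA (S_COO S_AIN)

/-- `w` functionals without common zero among functionals without common zero -/
theorem exists_basis {V κ : Type} [AddCommGroup V] [Module ℂ V] [FiniteDimensional ℂ V]
    (A : κ → V →ₗ[ℂ] ℂ) (h : ∀ v, (∀ k, A k v = 0) → v = 0) {w : ℕ} (hw : finrank ℂ V = w) :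
    ∃ l : Fin w → κ, ∀ v, (∀ i, A (l i) v = 0) → v = 0 := by
  have hspan : Submodule.span ℂ (Set.range A) = (⊤ : Submodule ℂ (Dual ℂ V)) := by
    have h1 := Subspace.finrank_add_finrank_dualCoannihilator_eq (Submodule.span ℂ (Set.range A))
    have h2 : (Submodule.span ℂ (Set.range A)).dualCoannihilator = (⊥ : Submodule ℂ V) := by
      rw [eq_bot_iff]
      intro v hv
      rw [Submodule.mem_bot]
      refine h v fun k => ?_
      rw [Submodule.mem_dualCoannihilator] at hv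
      exact hv (A k) (Submodule.subset_span ⟨k, rfl⟩)
    rw [h2, finrank_bot, add_zero] at h1
    exact Submodule.eq_top_of_finrank_eq (by rw [h1, Subspace.dual_finrank_eq])
  obtain ⟨b, hb1, hb2, hb3⟩ := exists_linearIndependent ℂ (Set.range A)
  have hbspan : Submodule.span ℂ b = (⊤ : Submodule ℂ (Dual ℂ V)) := hb2.trans hspan
  let B : Basis b ℂ (Dual ℂ V) := Basis.mk hb3 (by rw [Subtype.range_coe, hbspan])
  letI : Fintype b := FiniteDimensional.fintypeBasisIndex B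
  have hcard : Fintype.card b = w := by
    rw [← finrank_eq_card_basis B, Subspace.dual_finrank_eq, hw]
  let e : Fin w ≃ b := (Fintype.equivFinOfCardEq hcard).symm
  choose l hl using fun i : Fin w => hb1 (e i).2
  refine ⟨l, fun v hv => h v fun k => ?_⟩
  have h3 : A k ∈ Submodule.span ℂ b := by rw [hbspan]; exact Submodule.mem_top
  have h4 : ∀ f ∈ Submodule.span ℂ b, f v = 0 := by
    intro f hf
    induction hf using Submodule.span_induction with
    | mem x hx =>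
      obtain ⟨i, hi⟩ := e.surjective ⟨x, hx⟩
      have h5 := hl i
      rw [hi] at h5
      have h6 : A (l i) = x := h5
      rw [← h6]
      exact hv i
    | zero => rfl
    | add x y _ _ hx hy => rw [LinearMap.add_apply, hx, hy, add_zero]
    | smul c x _ hx => rw [LinearMap.smul_apply, hx, smul_zero]
  exact h4 _ h3

theorem rep_div {n : ℕ} {v : Fin (n + 1) → ℂ} (h : v ≠ 0) (i j : Fin (n + 1)) :
    (Projectivization.mk ℂ v h).rep i / (Projectivization.mk ℂ v h).rep j = v i / v j := by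
  obtain ⟨a, ha⟩ := Projectivization.exists_smul_eq_mk_rep ℂ v h
  rw [← ha]
  show (a : ℂ) * v i / ((a : ℂ) * v j) = _
  exact mul_div_mul_left _ _ a.ne_zero

theorem t_COO : S_COO := by
  intro w n g t₁ hg
  obtain ⟨φ, hφ, hgφ, hinj⟩ := hg
  obtain ⟨h0, hg0⟩ := hgφ.self_of_nhds
  obtain ⟨l0, hl0⟩ : ∃ l0, φ t₁ l0 ≠ 0 := by
    by_contra hcon
    push Not at hcon
    exact h0 (funext hcon)
  have hrep : (g t₁).rep l0 ≠ 0 := by
    rw [hg0]
    obtain ⟨a, ha⟩ := Projectivization.exists_smul_eq_mk_rep ℂ (φ t₁) h0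
    rw [← ha]
    show (a : ℂ) * φ t₁ l0 ≠ 0
    exact mul_ne_zero a.ne_zero hl0
  have hd : HasFDerivAt φ (fderiv ℂ φ t₁) t₁ := hφ.differentiableAt.hasFDerivAt
  have hdl : ∀ l, HasFDerivAt (fun t => φ t l)
      ((ContinuousLinearMap.proj l : (Fin (n + 1) → ℂ) →L[ℂ] ℂ).comp (fderiv ℂ φ t₁)) t₁ := fun l =>
    (ContinuousLinearMap.proj (R := ℂ) (φ := fun _ : Fin (n + 1) => ℂ) l).hasFDerivAt.comp t₁ hd
  have hψ : ∀ l, HasFDerivAt (fun t => φ t l / φ t l0) (((φ t₁ l0) ^ 2)⁻¹ • (φ t₁ l0 •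
      ((ContinuousLinearMap.proj l : (Fin (n + 1) → ℂ) →L[ℂ] ℂ).comp (fderiv ℂ φ t₁)) - φ t₁ l •
      ((ContinuousLinearMap.proj l0 : (Fin (n + 1) → ℂ) →L[ℂ] ℂ).comp (fderiv ℂ φ t₁)))) t₁ := by
    intro l
    have h1 := (hasDerivAt_inv hl0).comp_hasFDerivAt t₁ (hdl l0)
    have h2 := (hdl l).mul h1
    refine (h2.congr_fderiv (ContinuousLinearMap.ext fun v => ?_)).congr_of_eventuallyEq
      (Eventually.of_forall fun t => div_eq_mul_inv _ _)
    symm
    show ((φ t₁ l0) ^ 2)⁻¹ * (φ t₁ l0 * fderiv ℂ φ t₁ v l - φ t₁ l * fderiv ℂ φ t₁ v l0) =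
      φ t₁ l * (-((φ t₁ l0) ^ 2)⁻¹ * fderiv ℂ φ t₁ v l0) + (φ t₁ l0)⁻¹ * fderiv ℂ φ t₁ v l
    field_simp
    ring
  have hev : ∀ l, (fun t => (g t).rep l / (g t).rep l0) =ᶠ[𝓝 t₁] fun t => φ t l / φ t l0 := by
    intro l
    filter_upwards [hgφ] with t ht
    obtain ⟨h1, h2⟩ := ht
    rw [h2]
    exact rep_div h1 l l0
  have hfd : ∀ l, fderiv ℂ (fun t => (g t).rep l / (g t).rep l0) t₁ = ((φ t₁ l0) ^ 2)⁻¹ • (φ t₁ l0 •
      ((ContinuousLinearMap.proj l : (Fin (n + 1) → ℂ) →L[ℂ] ℂ).comp (fderiv ℂ φ t₁)) - φ t₁ l •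
      ((ContinuousLinearMap.proj l0 : (Fin (n + 1) → ℂ) →L[ℂ] ℂ).comp (fderiv ℂ φ t₁))) := by
    intro l
    rw [(hev l).fderiv_eq, (hψ l).fderiv]
  obtain ⟨l, hl⟩ := exists_basis (V := Fin w → ℂ)
    (fun l : Fin (n + 1) => (fderiv ℂ (fun t => (g t).rep l / (g t).rep l0) t₁ : (Fin w → ℂ) →ₗ[ℂ] ℂ)) (by
      intro v hv
      by_contra hv0
      refine hinj v hv0 (fderiv ℂ φ t₁ v l0 / φ t₁ l0) ?_
      funext l
      have h1 : fderiv ℂ (fun t => (g t).rep l / (g t).rep l0) t₁ v = 0 := hv l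
      rw [hfd l] at h1
      have h2 : ((φ t₁ l0) ^ 2)⁻¹ * (φ t₁ l0 * fderiv ℂ φ t₁ v l - φ t₁ l * fderiv ℂ φ t₁ v l0) = 0 := h1
      have h3 : φ t₁ l0 * fderiv ℂ φ t₁ v l - φ t₁ l * fderiv ℂ φ t₁ v l0 = 0 := by
        rcases mul_eq_zero.1 h2 with h4 | h4
        · exact absurd (inv_eq_zero.1 h4) (pow_ne_zero 2 hl0)
        · exact h4
      show fderiv ℂ φ t₁ v l = fderiv ℂ φ t₁ v l0 / φ t₁ l0 * φ t₁ l
      field_simp
      linear_combination h3) (w := w) (by rw [finrank_fin_fun])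
  exact ⟨l0, l, hrep, fun v hv => hl v hv⟩

theorem t_AIN : S_AIN := by
  intro w u t₁ hu hinj H hH
  let U : (Fin w → ℂ) → (Fin w → ℂ) := fun t i => u i t
  have hU : HasStrictFDerivAt U (ContinuousLinearMap.pi fun i => fderiv ℂ (u i) t₁) t₁ := by
    rw [hasStrictFDerivAt_pi]
    intro i
    exact (hu i).hasStrictFDerivAt
  have hsurj : (ContinuousLinearMap.pi fun i => fderiv ℂ (u i) t₁).range = ⊤ := by
    apply LinearMap.range_eq_top.2
    apply LinearMap.injective_iff_surjective.1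
    rw [← LinearMap.ker_eq_bot, eq_bot_iff]
    intro v hv
    rw [Submodule.mem_bot]
    refine hinj v fun i => ?_
    exact congrFun hv i
  have hmap := hU.map_nhds_eq_of_surj hsurj
  have h1 : ∀ᶠ y in 𝓝 (U t₁), eval y H = 0 := by
    rw [← hmap]
    exact hH
  obtain ⟨ε, hε, hball⟩ := Metric.eventually_nhds_iff_ball.1 h1
  refine funext_set (fun i => Metric.ball (U t₁ i) ε) (fun i => ?_) fun y hy => ?_
  · exact infinite_of_mem_nhds (U t₁ i) (Metric.ball_mem_nhds _ hε)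
  · rw [map_zero]
    refine hball y ?_
    rw [ball_pi _ hε]
    exact hy

end Run7.h711.TA
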