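import Pool.Agent.Run7.h177.TA.Iface2

/-!
Project TA (helper177), piece PRI: a primitive element (helper711).
-/

set_option autoImplicit false
set_option linter.all false

namespace Run7.h711.TA

open MvPolynomial
open Run7.h177.TA (S_PRI Pl)
open scoped IntermediateField

/-- the derivative with respect to the variable `none` -/
theorem opt_pderiv {w : ℕ} (H : Pl ℂ w) :
    optionEquivLeft ℂ (Fin w) (pderiv none H) = Polynomial.derivative (optionEquivLeft ℂ (Fin w) H) := by
  induction H using MvPolynomial.induction_on with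
  | C a =>
    rw [pderiv_C, map_zero, optionEquivLeft_C, Polynomial.derivative_C]
  | add p q hp hq => rw [map_add, map_add, hp, hq, map_add, Polynomial.derivative_add]
  | mul_X p o hp =>
    rw [Derivation.leibniz, smul_eq_mul, smul_eq_mul, map_add, map_mul, map_mul, hp, map_mul,
      Polynomial.derivative_mul]
    rcases o with _ | i
    · rw [pderiv_X_self, map_one, optionEquivLeft_X_none, Polynomial.derivative_X]
      ring
    · rw [pderiv_X_of_ne (by simp), map_zero, optionEquivLeft_X_some, Polynomial.derivative_C]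
      ring

theorem t_PRI : S_PRI := by
  intro K _ _ w D u hu hdeg
  letI iA : Algebra (MvPolynomial (Fin w) ℂ) K := (aeval u : MvPolynomial (Fin w) ℂ →ₐ[ℂ] K).toRingHom.toAlgebra
  haveI : IsScalarTower ℂ (MvPolynomial (Fin w) ℂ) K :=
    IsScalarTower.of_algebraMap_eq fun x => ((aeval u : MvPolynomial (Fin w) ℂ →ₐ[ℂ] K).commutes x).symm
  have hinj : Function.Injective (algebraMap (MvPolynomial (Fin w) ℂ) K) := hu
  haveI : FaithfulSMul (MvPolynomial (Fin w) ℂ) K := (faithfulSMul_iff_algebraMap_injective _ K).2 hinj
  set A := MvPolynomial (Fin w) ℂ with hA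
  set F := FractionRing A with hF
  letI : Algebra F K := FractionRing.liftAlgebra A K
  haveI : IsScalarTower A F K := FractionRing.isScalarTower_liftAlgebra A K
  haveI : CharZero A := charZero_of_injective_algebraMap (algebraMap ℂ A).injective
  haveI : CharZero F := charZero_of_injective_algebraMap (IsFractionRing.injective A F)
  -- the evaluation
  have hev : ∀ (θ : K) (H : Pl ℂ w), aeval (fun o : Option (Fin w) => o.elim θ u) H =
      Polynomial.aeval θ (optionEquivLeft ℂ (Fin w) H : Polynomial A) := by
    intro θ H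
    induction H using MvPolynomial.induction_on with
    | C a =>
      rw [optionEquivLeft_C, Polynomial.aeval_C, aeval_C]
      exact IsScalarTower.algebraMap_apply ℂ A K a
    | add p q hp hq => rw [map_add, hp, hq, map_add, map_add]
    | mul_X p o hp =>
      rw [map_mul, hp, aeval_X, map_mul, map_mul]
      congr 1
      rcases o with _ | i
      · rw [optionEquivLeft_X_none, Polynomial.aeval_X]
        rfl
      · rw [optionEquivLeft_X_some, Polynomial.aeval_C]
        exact (aeval_X u i).symm
  -- all elements are of bounded degree over `F`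
  have halg : ∀ f : K, IsIntegral F f ∧ (minpoly F f).natDegree < D := by
    intro f
    obtain ⟨c, hc0, hcD, hc⟩ := hdeg f
    have hc1 : c.map (algebraMap A F) ≠ 0 := by
      rw [Ne, Polynomial.map_eq_zero_iff (IsFractionRing.injective A F)]
      exact hc0
    have hc2 : Polynomial.aeval f (c.map (algebraMap A F)) = 0 := by
      rw [Polynomial.aeval_map_algebraMap]
      exact hc
    refine ⟨(IsAlgebraic.isIntegral ⟨_, hc1, hc2⟩), ?_⟩
    calc (minpoly F f).natDegree ≤ (c.map (algebraMap A F)).natDegree :=
          Polynomial.natDegree_le_of_dvd (minpoly.dvd F f hc2) hc1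
      _ ≤ c.natDegree := Polynomial.natDegree_map_le
      _ < D := hcD
  haveI : Algebra.IsIntegral F K := ⟨fun f => (halg f).1⟩
  -- an element of maximal degree
  obtain ⟨θ₀, hθ₀⟩ : ∃ θ₀ : K, ∀ f : K, (minpoly F f).natDegree ≤ (minpoly F θ₀).natDegree := by
    have h1 : (Set.range fun f : K => (minpoly F f).natDegree).Nonempty := ⟨_, ⟨0, rfl⟩⟩
    have h2 : BddAbove (Set.range fun f : K => (minpoly F f).natDegree) :=
      ⟨D, by rintro _ ⟨f, rfl⟩; exact (halg f).2.le⟩
    obtain ⟨θ₀, h3⟩ := Nat.sSup_mem h1 h2
    refine ⟨θ₀, fun f => ?_⟩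
    have h4 : (minpoly F θ₀).natDegree = _ := h3
    rw [h4]
    exact le_csSup h2 ⟨f, rfl⟩
  have htop : ∀ f : K, f ∈ F⟮θ₀⟯ := by
    intro f
    let E : IntermediateField F K := IntermediateField.adjoin F {θ₀, f}
    haveI : FiniteDimensional F E := by
      refine IntermediateField.finiteDimensional_adjoin fun x _ => (halg x).1
    obtain ⟨α, hα⟩ := Field.exists_primitive_element F E
    have h1 : Module.finrank F E = (minpoly F (α : K)).natDegree := by
      have h2 : minpoly F (α : K) = minpoly F α := by
        exact minpoly.algebraMap_eq (B := E) (B' := K) (algebraMap E K).injective α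
      rw [h2, ← IntermediateField.adjoin.finrank (Algebra.IsIntegral.isIntegral α), hα,
        IntermediateField.finrank_top']
    have hle : F⟮θ₀⟯ ≤ E := by
      rw [IntermediateField.adjoin_simple_le_iff]
      exact IntermediateField.subset_adjoin F _ (by simp)
    have h3 : F⟮θ₀⟯ = E := by
      refine IntermediateField.eq_of_le_of_finrank_le hle ?_
      rw [h1, IntermediateField.adjoin.finrank (halg θ₀).1]
      exact hθ₀ _
    rw [h3]
    exact IntermediateField.subset_adjoin F _ (by simp)
  -- an integral generator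
  have halgA : IsAlgebraic A θ₀ := by
    obtain ⟨c, hc0, -, hc⟩ := hdeg θ₀
    exact ⟨c, hc0, hc⟩
  obtain ⟨a, ha0, ha⟩ := halgA.exists_integral_multiple
  have haK : algebraMap A K a ≠ 0 := by
    rw [Ne, map_eq_zero_iff _ hinj]
    exact ha0
  set θ : K := a • θ₀ with hθ
  have hθ' : θ₀ = (algebraMap A K a)⁻¹ * θ := by
    rw [hθ, Algebra.smul_def, inv_mul_cancel_left₀ haK]
  have hm : (minpoly A θ).Monic := minpoly.monic ha
  have hiff : ∀ p : Polynomial A, Polynomial.aeval θ p = 0 ↔ minpoly A θ ∣ p :=
    fun p => minpoly.isIntegrallyClosed_dvd_iff ha p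
  refine ⟨θ, (optionEquivLeft ℂ (Fin w)).symm (minpoly A θ), fun H => ?_, ?_, fun f => ?_⟩
  · rw [hev, hiff]
    rw [← map_dvd_iff (optionEquivLeft ℂ (Fin w)), AlgEquiv.apply_symm_apply]
  · rw [hev, opt_pderiv, AlgEquiv.apply_symm_apply, Ne, hiff]
    intro hdvd
    have h1 : Polynomial.derivative (minpoly A θ) = 0 := by
      by_contra h2
      have h3 := Polynomial.natDegree_le_of_dvd hdvd h2
      have h4 : 0 < (minpoly A θ).natDegree := minpoly.natDegree_pos ha
      have h5 := Polynomial.natDegree_derivative_lt h4.ne'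
      omega
    have h2 := Polynomial.natDegree_eq_zero_of_derivative_eq_zero h1
    exact (minpoly.natDegree_pos ha).ne' h2
  · have h1 := htop f
    have h2 : f ∈ (F⟮θ₀⟯).toSubalgebra := h1
    rw [IntermediateField.adjoin_simple_toSubalgebra_of_isAlgebraic (halg θ₀).1.isAlgebraic,
      Algebra.adjoin_singleton_eq_range_aeval] at h2
    obtain ⟨P₀, hP₀⟩ := h2
    have hP₀' : Polynomial.aeval θ₀ P₀ = f := hP₀
    let P : Polynomial F := P₀.comp (Polynomial.C (algebraMap A F a)⁻¹ * Polynomial.X)
    have hP : Polynomial.aeval θ P = f := by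
      rw [← hP₀']
      show Polynomial.aeval θ (P₀.comp _) = _
      rw [Polynomial.aeval_comp, map_mul, Polynomial.aeval_C, Polynomial.aeval_X, map_inv₀,
        ← IsScalarTower.algebraMap_apply A F K, ← hθ']
    obtain ⟨b, hb⟩ := IsLocalization.integerNormalization_map_to_map (nonZeroDivisors A) P
    have hbK : algebraMap A K (b : A) ≠ 0 := by
      rw [Ne, map_eq_zero_iff _ hinj]
      exact nonZeroDivisors.ne_zero b.2
    refine ⟨(optionEquivLeft ℂ (Fin w)).symm (IsLocalization.integerNormalization (nonZeroDivisors A) P),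
      (optionEquivLeft ℂ (Fin w)).symm (Polynomial.C (b : A)), ?_, ?_⟩
    · rw [hev, AlgEquiv.apply_symm_apply, Polynomial.aeval_C]
      exact hbK
    · rw [hev, hev, AlgEquiv.apply_symm_apply, AlgEquiv.apply_symm_apply, Polynomial.aeval_C]
      rw [← Polynomial.aeval_map_algebraMap F, hb, ← algebraMap_smul F (b : A) P, map_smul, hP,
        Algebra.smul_def, ← IsScalarTower.algebraMap_apply A F K]

end Run7.h711.TA
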